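import Pool.Agent.Helper11.LE.Goals1

/-!
# Project LE, packet L_CYC
-/

namespace Pool.Agent.Helper90.LE

open NumberField Polynomial Module IsDedekindDomain

theorem l_cyc : Pool.Agent.Helper11.LE.L_CYC := by
  intro p hp K K₁ _ _ _ _ _ ε h
  haveI := h.gal
  haveI : NeZero p := ⟨hp.out.ne_zero⟩
  haveI : Algebra.IsAlgebraic K K₁ := inferInstance
  haveI : FiniteDimensional K K₁ := Module.Finite.of_restrictScalars_finite ℚ K K₁
  have hinj : Function.Injective (h.prim.autToPow K) := by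
    rw [injective_iff_map_eq_one]
    intro σ hσ
    apply h.gen
    have h1 := h.prim.autToPow_spec K σ
    rw [hσ, Units.val_one] at h1
    rw [← h1]
    haveI : Fact (1 < p) := ⟨hp.out.one_lt⟩
    rw [ZMod.val_one, pow_one]
  have hcard : finrank K K₁ = Nat.card (K₁ ≃ₐ[K] K₁) := (IsGalois.card_aut_eq_finrank K K₁).symm
  have hdvd : finrank K K₁ ∣ p - 1 := by
    rw [hcard, ← Nat.totient_prime hp.out, ← ZMod.card_units_eq_totient,
      ← Nat.card_eq_fintype_card]
    exact Subgroup.card_dvd_of_injective _ hinj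
  refine ⟨hdvd, ?_, ⟨?_, ?_⟩, ?_⟩
  · have h1 : (p - 1).Coprime p := by
      have h2 := Nat.coprime_self_add_right (m := p - 1) (n := 1)
      have h3 : p - 1 + 1 = p := Nat.succ_pred_prime hp.out
      rw [h3] at h2
      exact h2.mpr (Nat.coprime_one_right _)
    exact Nat.Coprime.coprime_dvd_left hdvd h1
  · intro h1
    rw [hcard, Nat.card_eq_one_iff_unique] at h1
    haveI := h1.1
    have h2 : ε ∈ (⊥ : IntermediateField K K₁) := by
      rw [IsGalois.mem_bot_iff_fixed]
      intro σ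
      rw [Subsingleton.elim σ 1]
      rfl
    rw [IntermediateField.mem_bot] at h2
    obtain ⟨ξ, hξ⟩ := h2
    refine ⟨ξ, ?_⟩
    have h3 := h.prim
    rw [← hξ] at h3
    exact (IsPrimitiveRoot.map_iff_of_injective
      (FaithfulSMul.algebraMap_injective K K₁)).mp h3
  · rintro ⟨ξ, hξ⟩
    have h1 : IsPrimitiveRoot (algebraMap K K₁ ξ) p :=
      hξ.map_of_injective (FaithfulSMul.algebraMap_injective K K₁)
    obtain ⟨i, -, hi⟩ := h1.eq_pow_of_pow_eq_one h.prim.pow_eq_one
    rw [hcard, Nat.card_eq_one_iff_unique]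
    refine ⟨⟨fun σ τ ↦ ?_⟩, ⟨1⟩⟩
    have h2 : ∀ σ : K₁ ≃ₐ[K] K₁, σ = 1 := by
      intro σ
      apply h.gen
      rw [← hi, map_pow, AlgEquiv.commutes]
    rw [h2 σ, h2 τ]
  · intro hp2
    have h1 : 2 < p := lt_of_le_of_ne hp.out.two_le (Ne.symm hp2)
    rw [← nrRealPlaces_eq_zero_iff]
    exact _root_.NumberField.InfinitePlace.IsPrimitiveRoot.nrRealPlaces_eq_zero_of_two_lt h1 h.prim

end Pool.Agent.Helper90.LE
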